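import Pool.Agent.helper33.CVX.Main

namespace Pool.Agent.Results.MP_b3a64d_ag.CompleteIntersectionsInProducts

open MvPolynomial Pool.Agent.CVX

/-- Let `X` be a smooth complete intersection of `r ≥ 1` divisors `F j = 0` of multidegrees `d j`, all `d j l ≥ 1`, in the
product of the projective spaces `P^(n l)`, `l < k`, all `n l ≥ 1`, and suppose that `∑ j, d j i ≤ n i` and
`∑ j, d j i' ≤ n i'` for two different indices `i`, `i'`. If every rational curve on `X` is free, then `r = 1`, `k = 2`,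
`n i = n i'` and the equation of `X` is a nondegenerate bilinear form, i.e. `X` is the variety of the flags
(point, hyperplane) of a projective space. -/
theorem result (k r : ℕ) (n : Fin k → ℕ) (d : Fin r → Fin k → ℕ) (F : Fin r → MvPolynomial (Vr n) ℂ)
    (hr : 0 < r) (hn : ∀ l, 1 ≤ n l) (hF : Data n d F) (hS : SmoothCI n F) (i i' : Fin k) (hi : i ≠ i')
    (h : ∑ j, d j i ≤ n i) (h' : ∑ j, d j i' ≤ n i') (hfree : AllFree n d F) :
    r = 1 ∧ k = 2 ∧ n i = n i' ∧
      ∃ (A : Matrix (Fin (n i + 1)) (Fin (n i' + 1)) ℂ) (B : Matrix (Fin (n i' + 1)) (Fin (n i + 1)) ℂ),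
        A * B = 1 ∧ B * A = 1 ∧
        ∀ j, F j = ∑ a : Fin (n i + 1), ∑ b : Fin (n i' + 1), C (A a b) * X ⟨i, a⟩ * X ⟨i', b⟩ :=
  main k r n d F hr hn hF hS i i' hi h h' hfree

end Pool.Agent.Results.MP_b3a64d_ag.CompleteIntersectionsInProducts
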